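import Pool.Agent.Helper4.CI.Goals
import Pool.Agent.Helper88.Mono.Dual

/-!
MP_aa7fc1_ag, packet I12: indices of scaled generators.
-/

namespace Mono.CI

open Finset Mono Mono.G2

namespace I12

variable {n : ℕ}

lemma toR_neg' (x : Fin n → ℤ) : toR (-x) = -toR x := by
  funext i
  simp [toR]

lemma toR_zsmul' (k : ℤ) (x : Fin n → ℤ) : toR (k • x) = (k : ℝ) • toR x := by
  funext i
  simp [toR]

lemma toR_add' (x y : Fin n → ℤ) : toR (x + y) = toR x + toR y := by
  funext i
  simp [toR]

lemma toR_zero' : toR (0 : Fin n → ℤ) = 0 := by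
  funext i
  simp [toR]

lemma toR_mem_span {B : Set (Fin n → ℤ)} {z : Fin n → ℤ} (hz : z ∈ AddSubgroup.closure B) :
    toR z ∈ Submodule.span ℝ (toR '' B) := by
  induction hz using AddSubgroup.closure_induction with
  | mem x hx => exact Submodule.subset_span ⟨x, hx, rfl⟩
  | zero => rw [toR_zero']; exact Submodule.zero_mem _
  | add x y _ _ hx hy => rw [toR_add']; exact Submodule.add_mem _ hx hy
  | neg x _ hx => rw [toR_neg']; exact Submodule.neg_mem _ hx

lemma closure_smul_le (B : Set (Fin n → ℤ)) (x : Fin n → ℤ) (L : ℤ) :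
    AddSubgroup.closure (insert (L • x) B) ≤ AddSubgroup.closure (insert x B) := by
  rw [AddSubgroup.closure_le]
  rintro z (rfl | hz)
  · exact AddSubgroup.zsmul_mem _ (AddSubgroup.subset_closure (Set.mem_insert _ _)) _
  · exact AddSubgroup.subset_closure (Set.mem_insert_of_mem _ hz)

lemma sat_smul (B : Set (Fin n → ℤ)) (x : Fin n → ℤ) {L : ℤ} (hL : L ≠ 0) :
    sat (insert (L • x) B) = sat (insert x B) := by
  apply le_antisymm
  · rintro z ⟨k, hk, hz⟩
    exact ⟨k, hk, closure_smul_le B x L hz⟩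
  · rintro z ⟨k, hk, hz⟩
    obtain ⟨a, b, hb, h⟩ := mem_closure_insert.1 hz
    refine ⟨L * k, mul_ne_zero hL hk, mem_closure_insert.2 ⟨a, L • b,
      AddSubgroup.zsmul_mem _ hb _, ?_⟩⟩
    rw [mul_smul, h, smul_add, smul_comm]

lemma idx_smul (B : Set (Fin n → ℤ)) (x : Fin n → ℤ) (L : ℕ) (hL : L ≠ 0)
    (hx : toR x ∉ Submodule.span ℝ (toR '' B)) :
    idx (insert ((L : ℤ) • x) B) = L * idx (insert x B) := by
  have hL' : (L : ℤ) ≠ 0 := by exact_mod_cast hL
  unfold idx
  rw [sat_smul B x hL', ← AddSubgroup.relIndex_mul_relIndex _ _ _ (closure_smul_le B x L)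
    (closure_le_sat _)]
  congr 1
  have h1 : AddSubgroup.closure (insert x B) =
      AddSubgroup.zmultiples x ⊔ AddSubgroup.closure (insert ((L : ℤ) • x) B) := by
    apply le_antisymm
    · rw [AddSubgroup.closure_le]
      rintro z (rfl | hz)
      · exact AddSubgroup.mem_sup_left (AddSubgroup.mem_zmultiples _)
      · exact AddSubgroup.mem_sup_right
          (AddSubgroup.subset_closure (Set.mem_insert_of_mem _ hz))
    · apply sup_le _ (closure_smul_le B x L)
      rw [AddSubgroup.zmultiples_le]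
      exact AddSubgroup.subset_closure (Set.mem_insert _ _)
  rw [h1, AddSubgroup.relIndex_sup_right]
  have h2 : AddSubgroup.zmultiples x = (zmultiplesHom (Fin n → ℤ) x).range := by
    ext z
    simp only [AddSubgroup.mem_zmultiples_iff, AddMonoidHom.mem_range, zmultiplesHom_apply]
  rw [h2, ← AddSubgroup.index_comap]
  have h3 : (AddSubgroup.closure (insert ((L : ℤ) • x) B)).comap
      (zmultiplesHom (Fin n → ℤ) x) = AddSubgroup.zmultiples (L : ℤ) := by
    ext m
    rw [AddSubgroup.mem_comap, zmultiplesHom_apply, mem_closure_insert,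
      AddSubgroup.mem_zmultiples_iff]
    constructor
    · rintro ⟨k, b, hb, h⟩
      refine ⟨k, ?_⟩
      have h4 : (m - k * L) • x = b := by
        rw [sub_smul, h, mul_smul]
        abel
      by_contra hne
      have h5 : m - k * (L : ℤ) ≠ 0 := by
        intro h0
        apply hne
        rw [smul_eq_mul]
        linarith
      apply hx
      have h6 : toR b ∈ Submodule.span ℝ (toR '' B) := toR_mem_span hb
      rw [← h4, toR_zsmul'] at h6
      have h7 : ((m - k * (L : ℤ) : ℤ) : ℝ) ≠ 0 := by exact_mod_cast h5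
      have h8 := Submodule.smul_mem _ (((m - k * (L : ℤ) : ℤ) : ℝ)⁻¹) h6
      rwa [smul_smul, inv_mul_cancel₀ h7, one_smul] at h8
    · rintro ⟨k, rfl⟩
      refine ⟨k, 0, AddSubgroup.zero_mem _, ?_⟩
      rw [add_zero, smul_eq_mul, mul_smul]
  rw [h3, Int.index_zmultiples, Int.natAbs_natCast]

lemma span_up (L : ℕ) (H P : Finset (Fin n → ℤ)) (R : Set (Fin n → ℤ))
    (hPR : ∀ u ∈ P, u ∈ R) :
    Submodule.span ℝ (toR '' ((P.image (up L H) : Finset (Fin n → ℤ)) : Set (Fin n → ℤ))) ≤
      Submodule.span ℝ (toR '' R) := by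
  rw [Submodule.span_le]
  rintro _ ⟨y, hy, rfl⟩
  rw [Finset.mem_coe, Finset.mem_image] at hy
  obtain ⟨u, hu, rfl⟩ := hy
  have h1 : toR u ∈ Submodule.span ℝ (toR '' R) := Submodule.subset_span ⟨u, hPR u hu, rfl⟩
  unfold up
  split_ifs
  · exact h1
  · rw [toR_zsmul']
    exact Submodule.smul_mem _ _ h1

lemma notMem_span {F : Finset (Fin n → ℤ)} (hF : Indep F) {u : Fin n → ℤ} (hu : u ∈ F) :
    toR u ∉ Submodule.span ℝ (toR '' ((F.erase u : Finset (Fin n → ℤ)) : Set (Fin n → ℤ))) := by
  have h1 := hF.notMem_span_image (s := {v : F | v.1 ≠ u}) (x := ⟨u, hu⟩) (by simp)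
  intro h2
  apply h1
  refine Submodule.span_mono ?_ h2
  rintro _ ⟨v, hv, rfl⟩
  rw [Finset.mem_coe, Finset.mem_erase] at hv
  exact ⟨⟨v, hv.2⟩, hv.1, rfl⟩

lemma idx_up (L : ℕ) (hL : L ≠ 0) (H : Finset (Fin n → ℤ)) (F : Finset (Fin n → ℤ))
    (hF : Indep F) (P : Finset (Fin n → ℤ)) (hP : P ⊆ F) :
    idx (((F \ P) ∪ P.image (up L H) : Finset (Fin n → ℤ)) : Set (Fin n → ℤ)) =
      L ^ (P \ H).card * idx (F : Set (Fin n → ℤ)) := by
  induction P using Finset.induction_on with
  | empty => simp
  | insert u P huP ih =>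
    have hu : u ∈ F := hP (Finset.mem_insert_self _ _)
    have hP' : P ⊆ F := fun v hv => hP (Finset.mem_insert_of_mem hv)
    have ih' := ih hP'
    set R : Finset (Fin n → ℤ) := (F \ insert u P) ∪ P.image (up L H) with hR
    have e1 : (F \ P) ∪ P.image (up L H) = insert u R := by
      rw [hR]
      ext v
      simp only [Finset.mem_union, Finset.mem_sdiff, Finset.mem_insert, Finset.mem_image]
      constructor
      · rintro (⟨h1, h2⟩ | h)
        · by_cases hv : v = u
          · exact Or.inl hv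
          · exact Or.inr (Or.inl ⟨h1, by rintro (h | h); exacts [hv h, h2 h]⟩)
        · exact Or.inr (Or.inr h)
      · rintro (rfl | ⟨h1, h2⟩ | h)
        · exact Or.inl ⟨hu, huP⟩
        · exact Or.inl ⟨h1, fun h => h2 (Or.inr h)⟩
        · exact Or.inr h
    have e2 : (F \ insert u P) ∪ (insert u P).image (up L H) = insert (up L H u) R := by
      rw [hR, Finset.image_insert, Finset.union_insert]
    have hspan : Submodule.span ℝ (toR '' (R : Set (Fin n → ℤ))) ≤
        Submodule.span ℝ (toR '' ((F.erase u : Finset (Fin n → ℤ)) : Set (Fin n → ℤ))) := by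
      rw [hR, Finset.coe_union, Set.image_union, Submodule.span_union]
      apply sup_le
      · apply Submodule.span_mono
        apply Set.image_mono
        intro v hv
        rw [Finset.mem_coe, Finset.mem_sdiff, Finset.mem_insert] at hv
        rw [Finset.mem_coe, Finset.mem_erase]
        exact ⟨fun h => hv.2 (Or.inl h), hv.1⟩
      · apply span_up L H P
        intro v hv
        rw [Finset.mem_coe, Finset.mem_erase]
        refine ⟨?_, hP' hv⟩
        rintro rfl
        exact huP hv
    have hnot : toR u ∉ Submodule.span ℝ (toR '' (R : Set (Fin n → ℤ))) :=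
      fun h => notMem_span hF hu (hspan h)
    rw [e1, Finset.coe_insert] at ih'
    rw [e2, Finset.coe_insert]
    by_cases huH : u ∈ H
    · have h1 : up L H u = u := by unfold up; rw [if_pos huH]
      have h2 : insert u P \ H = P \ H := Finset.insert_sdiff_of_mem _ huH
      rw [h1, h2, ih']
    · have h1 : up L H u = (L : ℤ) • u := by unfold up; rw [if_neg huH]
      have h2 : insert u P \ H = insert u (P \ H) := Finset.insert_sdiff_of_notMem _ huH
      have h3 : u ∉ P \ H := fun h => huP (Finset.mem_sdiff.1 h).1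
      rw [h1, h2, Finset.card_insert_of_notMem h3, idx_smul _ u L hL hnot, ih', pow_succ]
      ring

theorem idxSmul : IdxSmul := fun _ B x L hL hx => idx_smul B x L hL hx

theorem idxScale' : IdxScale := by
  intro N k A b L b' Z Φ' Φ h F hF
  have hL : L ≠ 0 := by
    have := h.two_le
    omega
  have h1 := idx_up L hL (Hset A Z) F (Φ.mx_indep F hF) F (Finset.Subset.refl _)
  rw [Finset.sdiff_self, Finset.empty_union] at h1
  exact h1

theorem idxScale (_ : IdxSmul) (_ : ScaleRel) : IdxScale := idxScale'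

end I12

end Mono.CI
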